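import Pool.Agent.Helper79.KW.Base

/-!
# Piece MN1: basic properties of `matNorm`
-/

open CategoryTheory Topology
open scoped ENNReal

namespace Pool.Agent.KW

universe u v

section MN1
variable {m n A B : Type*} [Fintype n] [Fintype m] [NonUnitalCStarAlgebra A]
  [NonUnitalCStarAlgebra B]

attribute [local instance] CStarAlgebra.spectralOrder CStarAlgebra.spectralOrderedRing

namespace MN1

theorem matNorm_eq (M : n → n → A) :
    matNorm M = ‖(CStarMatrix.ofMatrix M : CStarMatrix n n A)‖ := rfl

/-- the underlying C*-matrix -/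
def mk (M : n → n → A) : CStarMatrix n n A := CStarMatrix.ofMatrix M

theorem matNorm_mk (M : n → n → A) : matNorm M = ‖mk M‖ := rfl

end MN1

open MN1

theorem matNorm_nonneg (M : n → n → A) : 0 ≤ matNorm M := norm_nonneg _

theorem matNorm_zero : matNorm (fun _ _ : n => (0 : A)) = 0 := by
  have h : mk (fun _ _ : n => (0 : A)) = 0 := rfl
  rw [matNorm_mk, h, norm_zero]

theorem matNorm_add_le (M N : n → n → A) :
    matNorm (fun i j => M i j + N i j) ≤ matNorm M + matNorm N := by
  have h : mk (fun i j => M i j + N i j) = mk M + mk N := rfl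
  rw [matNorm_mk, h]
  exact norm_add_le _ _

theorem matNorm_sub_le (M N : n → n → A) :
    matNorm (fun i j => M i j - N i j) ≤ matNorm M + matNorm N := by
  have h : mk (fun i j => M i j - N i j) = mk M - mk N := rfl
  rw [matNorm_mk, h]
  exact norm_sub_le _ _

theorem matNorm_smul (c : ℂ) (M : n → n → A) :
    matNorm (fun i j => c • M i j) = ‖c‖ * matNorm M := by
  have h : mk (fun i j => c • M i j) = c • mk M := rfl
  rw [matNorm_mk, h, norm_smul]
  rfl

theorem matNorm_sum_le {κ : Type*} (s : Finset κ) (M : κ → n → n → A) :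
    matNorm (fun i j => ∑ k ∈ s, M k i j) ≤ ∑ k ∈ s, matNorm (M k) := by
  classical
  induction s using Finset.induction_on with
  | empty => simpa using (matNorm_zero (n := n) (A := A)).le
  | insert a s ha ih =>
    rw [Finset.sum_insert ha]
    have h : (fun i j => ∑ k ∈ insert a s, M k i j) =
        fun i j => M a i j + ∑ k ∈ s, M k i j := by
      funext i j
      rw [Finset.sum_insert ha]
    rw [h]
    exact (matNorm_add_le _ _).trans (by gcongr)

theorem norm_entry_le_matNorm (M : n → n → A) (i j : n) : ‖M i j‖ ≤ matNorm M :=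
  CStarMatrix.norm_entry_le_norm (M := mk M) (i := i) (j := j)

theorem matNorm_mul_le (M N : n → n → A) :
    matNorm (fun i k => ∑ j, M i j * N j k) ≤ matNorm M * matNorm N := by
  have h : mk (fun i k => ∑ j, M i j * N j k) = mk M * mk N := by
    ext i k
    rw [CStarMatrix.mul_apply]
    rfl
  rw [matNorm_mk, h]
  exact norm_mul_le _ _

theorem matNorm_star (M : n → n → A) : matNorm (fun i j => star (M j i)) = matNorm M := by
  have h : mk (fun i j => star (M j i)) = star (mk M) := by
    ext i k
    rw [CStarMatrix.star_apply]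
    rfl
  rw [matNorm_mk, h, norm_star]
  rfl

theorem matNorm_star_mul_self (M : n → n → A) :
    matNorm (fun i k => ∑ j, star (M j i) * M j k) = matNorm M ^ 2 := by
  have h : mk (fun i k => ∑ j, star (M j i) * M j k) = star (mk M) * mk M := by
    ext i k
    rw [CStarMatrix.mul_apply]
    refine Finset.sum_congr rfl fun j _ => ?_
    rw [CStarMatrix.star_apply]
    rfl
  rw [matNorm_mk, h, CStarRing.norm_star_mul_self, sq]
  rfl

theorem matNorm_map_le (φ : A →⋆ₙₐ[ℂ] B) (M : n → n → A) :
    matNorm (fun i j => φ (M i j)) ≤ matNorm M :=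
  NonUnitalStarAlgHom.norm_apply_le (CStarMatrix.mapₙₐ (n := n) φ) (mk M)

theorem matNorm_map_of_injective (φ : A →⋆ₙₐ[ℂ] B) (hφ : Function.Injective φ) (M : n → n → A) :
    matNorm (fun i j => φ (M i j)) = matNorm M := by
  refine NonUnitalStarAlgHom.norm_map (CStarMatrix.mapₙₐ (n := n) φ) ?_ (mk M)
  intro X Y hXY
  ext i j
  have := congrFun (congrFun hXY i) j
  exact hφ this

namespace MN1

open Classical in
/-- extension by zero of matrices along an injective map -/
noncomputable def extendHom (f : m → n) (hf : Function.Injective f) :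
    CStarMatrix m m A →⋆ₙₐ[ℂ] CStarMatrix n n A where
  toFun X := mk fun i j =>
    if h : (∃ a, f a = i) ∧ ∃ b, f b = j then X h.1.choose h.2.choose else 0
  map_smul' c X := by
    ext i j
    simp only [mk, CStarMatrix.ofMatrix_apply, CStarMatrix.smul_apply]
    split_ifs <;> simp
  map_zero' := by
    ext i j
    simp only [mk, CStarMatrix.ofMatrix_apply, CStarMatrix.zero_apply]
    split_ifs <;> simp
  map_add' X Y := by
    ext i j
    simp only [mk, CStarMatrix.ofMatrix_apply, CStarMatrix.add_apply]
    split_ifs <;> simp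
  map_mul' X Y := by
    ext i k
    rw [CStarMatrix.mul_apply]
    simp only [mk, CStarMatrix.ofMatrix_apply]
    by_cases hi : ∃ a, f a = i
    · by_cases hk : ∃ b, f b = k
      · rw [dif_pos ⟨hi, hk⟩, CStarMatrix.mul_apply]
        have h1 : ∀ j ∈ (Finset.univ : Finset n), j ∉ Finset.univ.image f →
            ((if h : (∃ a, f a = i) ∧ ∃ b, f b = j then X h.1.choose h.2.choose else 0) *
              if h : (∃ a, f a = j) ∧ ∃ b, f b = k then Y h.1.choose h.2.choose else 0) = 0 := by
          intro j _ hj
          have : ¬ ∃ a, f a = j := by simpa using hj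
          rw [dif_neg (fun h => this h.2), zero_mul]
        rw [← Finset.sum_subset (Finset.subset_univ (Finset.univ.image f)) h1,
          Finset.sum_image (fun a _ b _ h => hf h)]
        refine Finset.sum_congr rfl fun a _ => ?_
        have hj : ∃ b, f b = f a := ⟨a, rfl⟩
        rw [dif_pos ⟨hi, hj⟩, dif_pos ⟨hj, hk⟩]
        have : hj.choose = a := hf hj.choose_spec
        rw [this]
      · rw [dif_neg (fun h => hk h.2)]
        symm
        refine Finset.sum_eq_zero fun j _ => ?_
        rw [dif_neg (fun h : (∃ a, f a = j) ∧ ∃ b, f b = k => hk h.2), mul_zero]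
    · rw [dif_neg (fun h => hi h.1)]
      symm
      refine Finset.sum_eq_zero fun j _ => ?_
      rw [dif_neg (fun h : (∃ a, f a = i) ∧ ∃ b, f b = j => hi h.1), zero_mul]
  map_star' X := by
    ext i j
    rw [CStarMatrix.star_apply]
    simp only [mk, CStarMatrix.ofMatrix_apply]
    by_cases hi : ∃ a, f a = i
    · by_cases hj : ∃ b, f b = j
      · rw [dif_pos ⟨hi, hj⟩, dif_pos ⟨hj, hi⟩, CStarMatrix.star_apply]
      · rw [dif_neg (fun h => hj h.2), dif_neg (fun h => hj h.1), star_zero]
    · rw [dif_neg (fun h => hi h.1), dif_neg (fun h => hi h.2), star_zero]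

theorem extendHom_apply (f : m → n) (hf : Function.Injective f) (X : CStarMatrix m m A)
    (a b : m) : extendHom f hf X (f a) (f b) = X a b := by
  have h : (∃ c, f c = f a) ∧ ∃ c, f c = f b := ⟨⟨a, rfl⟩, ⟨b, rfl⟩⟩
  have h1 : h.1.choose = a := hf h.1.choose_spec
  have h2 : h.2.choose = b := hf h.2.choose_spec
  calc extendHom f hf X (f a) (f b) = X h.1.choose h.2.choose := dif_pos h
    _ = X a b := by rw [h1, h2]

theorem extendHom_apply_of_left (f : m → n) (hf : Function.Injective f) (X : CStarMatrix m m A)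
    (i j : n) (hi : ¬ ∃ a, f a = i) : extendHom f hf X i j = 0 :=
  dif_neg fun h => hi h.1

theorem extendHom_apply_of_right (f : m → n) (hf : Function.Injective f) (X : CStarMatrix m m A)
    (i j : n) (hj : ¬ ∃ b, f b = j) : extendHom f hf X i j = 0 :=
  dif_neg fun h => hj h.2

theorem extendHom_injective (f : m → n) (hf : Function.Injective f) :
    Function.Injective (extendHom f hf : CStarMatrix m m A →⋆ₙₐ[ℂ] CStarMatrix n n A) := by
  intro X Y h
  ext a b
  rw [← extendHom_apply f hf X, ← extendHom_apply f hf Y, h]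

/-- the norm of the extension by zero -/
theorem norm_extendHom (f : m → n) (hf : Function.Injective f) (X : CStarMatrix m m A) :
    ‖extendHom f hf X‖ = ‖X‖ :=
  NonUnitalStarAlgHom.norm_map _ (extendHom_injective f hf) X

/-- unital case of the compression -/
theorem matNorm_submatrix_le_unital {A : Type*} [CStarAlgebra A] (f : m → n)
    (hf : Function.Injective f) (M : n → n → A) :
    matNorm (fun i j => M (f i) (f j)) ≤ matNorm M := by
  classical
  set P : CStarMatrix n n A := mk fun i j => if i = j ∧ ∃ a, f a = i then 1 else 0 with hP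
  have hPstar : star P = P := by
    ext i j
    rw [CStarMatrix.star_apply]
    simp only [hP, mk, CStarMatrix.ofMatrix_apply]
    by_cases hij : i = j
    · subst hij
      split_ifs <;> simp
    · rw [if_neg (fun h => hij h.1.symm), if_neg (fun h => hij h.1), star_zero]
  have hleft : ∀ (X : CStarMatrix n n A) (i j : n),
      (P * X) i j = if ∃ a, f a = i then X i j else 0 := by
    intro X i j
    rw [CStarMatrix.mul_apply, Finset.sum_eq_single i]
    · simp only [hP, mk, CStarMatrix.ofMatrix_apply, true_and]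
      split_ifs <;> simp
    · intro k _ hk
      simp only [hP, mk, CStarMatrix.ofMatrix_apply]
      rw [if_neg (fun h => hk h.1.symm), zero_mul]
    · intro h
      exact absurd (Finset.mem_univ i) h
  have hright : ∀ (X : CStarMatrix n n A) (i j : n),
      (X * P) i j = if ∃ a, f a = j then X i j else 0 := by
    intro X i j
    rw [CStarMatrix.mul_apply, Finset.sum_eq_single j]
    · simp only [hP, mk, CStarMatrix.ofMatrix_apply, true_and]
      split_ifs <;> simp
    · intro k _ hk
      simp only [hP, mk, CStarMatrix.ofMatrix_apply]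
      rw [if_neg (fun h => hk h.1), mul_zero]
    · intro h
      exact absurd (Finset.mem_univ j) h
  have hPP : star P * P = P := by
    rw [hPstar]
    ext i j
    rw [hleft]
    simp only [hP, mk, CStarMatrix.ofMatrix_apply]
    by_cases hi : ∃ a, f a = i
    · rw [if_pos hi]
    · rw [if_neg hi, if_neg (fun h => hi h.2)]
  have hPn : ‖P‖ ≤ 1 := by
    have h1 : ‖P‖ * ‖P‖ = ‖P‖ := by rw [← CStarRing.norm_star_mul_self, hPP]
    nlinarith [norm_nonneg P]
  have hcomp : extendHom f hf (mk fun i j => M (f i) (f j)) = P * mk M * P := by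
    ext i j
    rw [hright, hleft]
    by_cases hi : ∃ a, f a = i
    · by_cases hj : ∃ b, f b = j
      · obtain ⟨a, rfl⟩ := hi
        obtain ⟨b, rfl⟩ := hj
        rw [extendHom_apply, if_pos ⟨b, rfl⟩, if_pos ⟨a, rfl⟩]
        rfl
      · rw [extendHom_apply_of_right f hf _ i j hj, if_neg hj]
    · rw [extendHom_apply_of_left f hf _ i j hi, if_neg hi]
      split_ifs <;> rfl
  calc matNorm (fun i j => M (f i) (f j)) = ‖mk fun i j => M (f i) (f j)‖ := rfl
    _ = ‖P * mk M * P‖ := by rw [← hcomp, norm_extendHom]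
    _ ≤ ‖P‖ * ‖mk M‖ * ‖P‖ := norm_mul₃_le
    _ ≤ 1 * ‖mk M‖ * 1 := by gcongr
    _ = matNorm M := by rw [one_mul, mul_one]; rfl

/-- diagonal embedding of the algebra at the position `j` -/
theorem norm_single_le [DecidableEq n] (j : n) (a : A) :
    ‖mk (fun k l => if k = j ∧ l = j then a else 0)‖ ≤ ‖a‖ := by
  have h : ‖extendHom (A := A) (fun _ : Unit => j) (fun _ _ _ => rfl)
      (CStarMatrix.toOneByOne Unit ℂ A a)‖ = ‖a‖ := by
    rw [norm_extendHom]
    exact StarAlgEquiv.norm_map (CStarMatrix.toOneByOne Unit ℂ A) a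
  refine le_of_eq (Eq.trans ?_ h)
  congr 1
  ext k l
  change (if k = j ∧ l = j then a else 0) = extendHom (A := A) (fun _ : Unit => j)
    (fun _ _ _ => rfl) (CStarMatrix.toOneByOne Unit ℂ A a) k l
  by_cases hk : k = j
  · by_cases hl : l = j
    · subst hk
      subst hl
      rw [if_pos ⟨rfl, rfl⟩]
      exact (extendHom_apply (A := A) (fun _ : Unit => l) (fun _ _ _ => rfl)
        (CStarMatrix.toOneByOne Unit ℂ A a) () ()).symm
    · rw [if_neg (fun h => hl h.2), extendHom_apply_of_right]
      rintro ⟨_, h⟩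
      exact hl h.symm
  · rw [if_neg (fun h => hk h.1), extendHom_apply_of_left]
    rintro ⟨_, h⟩
    exact hk h.symm

theorem norm_single_entry_le [DecidableEq n] (i j : n) (a : A) :
    ‖mk (fun k l => if k = i ∧ l = j then a else 0)‖ ≤ ‖a‖ := by
  set E : CStarMatrix n n A := mk (fun k l => if k = i ∧ l = j then a else 0) with hE
  have h1 : star E * E = mk (fun k l => if k = j ∧ l = j then star a * a else 0) := by
    ext k l
    rw [CStarMatrix.mul_apply, Finset.sum_eq_single i]
    · rw [CStarMatrix.star_apply]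
      simp only [hE, mk, CStarMatrix.ofMatrix_apply, true_and]
      by_cases hk : k = j
      · by_cases hl : l = j
        · rw [if_pos hk, if_pos hl, if_pos ⟨hk, hl⟩]
        · rw [if_neg hl, mul_zero, if_neg (fun h => hl h.2)]
      · rw [if_neg hk, star_zero, zero_mul, if_neg (fun h => hk h.1)]
    · intro b _ hb
      rw [CStarMatrix.star_apply]
      simp only [hE, mk, CStarMatrix.ofMatrix_apply]
      rw [if_neg (fun h => hb h.1), star_zero, zero_mul]
    · intro h
      exact absurd (Finset.mem_univ i) h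
  have h2 : ‖E‖ * ‖E‖ ≤ ‖a‖ * ‖a‖ := by
    rw [← CStarRing.norm_star_mul_self, h1, ← CStarRing.norm_star_mul_self (x := a)]
    exact norm_single_le j _
  exact (mul_self_le_mul_self_iff (norm_nonneg _) (norm_nonneg _)).2 h2

end MN1

theorem matNorm_le_sum (M : n → n → A) : matNorm M ≤ ∑ i, ∑ j, ‖M i j‖ := by
  classical
  have h : M = fun k l => ∑ p ∈ (Finset.univ : Finset (n × n)),
      if k = p.1 ∧ l = p.2 then M p.1 p.2 else 0 := by
    funext k l
    rw [Finset.sum_eq_single (k, l)]
    · simp
    · rintro ⟨a, b⟩ _ hne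
      rw [if_neg]
      rintro ⟨rfl, rfl⟩
      exact hne rfl
    · intro h
      exact absurd (Finset.mem_univ _) h
  calc matNorm M ≤ ∑ p ∈ (Finset.univ : Finset (n × n)),
        matNorm (fun k l => if k = p.1 ∧ l = p.2 then M p.1 p.2 else 0) := by
        conv_lhs => rw [h]
        exact matNorm_sum_le _ (fun p : n × n => fun k l =>
          if k = p.1 ∧ l = p.2 then M p.1 p.2 else 0)
    _ ≤ ∑ p ∈ (Finset.univ : Finset (n × n)), ‖M p.1 p.2‖ := by
        refine Finset.sum_le_sum fun p _ => ?_
        exact norm_single_entry_le p.1 p.2 _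
    _ = ∑ i, ∑ j, ‖M i j‖ := by
        rw [← Finset.univ_product_univ, Finset.sum_product]

theorem matNorm_submatrix_le (f : m → n) (hf : Function.Injective f) (M : n → n → A) :
    matNorm (fun i j => M (f i) (f j)) ≤ matNorm M := by
  have h1 := matNorm_map_of_injective (n := n) (Unitization.inrNonUnitalStarAlgHom ℂ A)
    Unitization.inr_injective M
  have h2 := matNorm_map_of_injective (n := m) (Unitization.inrNonUnitalStarAlgHom ℂ A)
    Unitization.inr_injective (fun i j => M (f i) (f j))
  rw [← h1, ← h2]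
  exact matNorm_submatrix_le_unital f hf
    (fun i j => Unitization.inrNonUnitalStarAlgHom ℂ A (M i j))

theorem matNorm_reindex (e : m ≃ n) (M : n → n → A) :
    matNorm (fun i j => M (e i) (e j)) = matNorm M := by
  refine le_antisymm (matNorm_submatrix_le e e.injective M) ?_
  have h := matNorm_submatrix_le e.symm e.symm.injective (fun i j => M (e i) (e j))
  simpa using h

/-- scalar matrices: the norm of `M : n → n → ℂ` is the operator norm on `ℂⁿ` -/
theorem matNorm_scalar [DecidableEq n] (M : Matrix n n ℂ) :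
    matNorm (fun i j => M i j) =
      ‖(Matrix.toEuclideanCLM (n := n) (𝕜 := ℂ) M : EuclideanSpace ℂ n →L[ℂ] EuclideanSpace ℂ n)‖ := by
  have h := StarAlgEquiv.norm_map
    ((CStarMatrix.ofMatrixStarAlgEquiv (n := n) (A := ℂ)).symm.trans
      (Matrix.toEuclideanCLM (n := n) (𝕜 := ℂ))) (mk fun i j => M i j)
  exact h.symm

namespace MN1

/-- matrices of matrices are matrices: the *-homomorphism -/
noncomputable def blockHom (m n : Type*) [Fintype m] [Fintype n] [DecidableEq m] [DecidableEq n] :
    CStarMatrix m m (EuclideanSpace ℂ n →L[ℂ] EuclideanSpace ℂ n) →⋆ₙₐ[ℂ]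
      (EuclideanSpace ℂ (m × n) →L[ℂ] EuclideanSpace ℂ (m × n)) where
  toFun X := Matrix.toEuclideanCLM (n := m × n) (𝕜 := ℂ)
    (Matrix.of fun p q => (Matrix.toEuclideanCLM (n := n) (𝕜 := ℂ)).symm (X p.1 q.1) p.2 q.2)
  map_smul' c X := by
    rw [MonoidHom.id_apply, ← map_smul]
    congr 1
  map_zero' := by
    rw [← map_zero (Matrix.toEuclideanCLM (n := m × n) (𝕜 := ℂ))]
    congr 1
  map_add' X Y := by
    rw [← map_add]
    congr 1
  map_mul' X Y := by
    rw [← map_mul]
    congr 1
    ext p q
    rw [Matrix.mul_apply]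
    simp only [Matrix.of_apply, CStarMatrix.mul_apply, map_sum, map_mul, Matrix.sum_apply,
      Matrix.mul_apply]
    rw [← Finset.univ_product_univ, Finset.sum_product]
  map_star' X := by
    rw [← map_star]
    congr 1
    ext p q
    simp only [Matrix.of_apply, CStarMatrix.star_apply, map_star, Matrix.star_apply]

theorem blockHom_injective (m n : Type*) [Fintype m] [Fintype n] [DecidableEq m]
    [DecidableEq n] : Function.Injective (blockHom m n) := by
  intro X Y h
  have h1 := (Matrix.toEuclideanCLM (n := m × n) (𝕜 := ℂ)).injective h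
  ext1 i j
  apply (Matrix.toEuclideanCLM (n := n) (𝕜 := ℂ)).symm.injective
  ext a b
  exact congrFun (congrFun h1 (i, a)) (j, b)

end MN1

/-- matrices over matrices: `M_m(B(ℂⁿ)) = B(ℂ^{m × n})` isometrically -/
theorem matNorm_toEuclideanCLM [DecidableEq n] [DecidableEq m] (M : m → m → Matrix n n ℂ) :
    matNorm (fun i j => (Matrix.toEuclideanCLM (n := n) (𝕜 := ℂ) (M i j) :
      EuclideanSpace ℂ n →L[ℂ] EuclideanSpace ℂ n)) =
    ‖(Matrix.toEuclideanCLM (n := m × n) (𝕜 := ℂ)
      (Matrix.of fun p q => M p.1 q.1 p.2 q.2) :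
      EuclideanSpace ℂ (m × n) →L[ℂ] EuclideanSpace ℂ (m × n))‖ := by
  have h := NonUnitalStarAlgHom.norm_map (blockHom m n) (blockHom_injective m n)
    (mk fun i j => (Matrix.toEuclideanCLM (n := n) (𝕜 := ℂ) (M i j) :
      EuclideanSpace ℂ n →L[ℂ] EuclideanSpace ℂ n))
  have h2 : blockHom m n (mk fun i j => (Matrix.toEuclideanCLM (n := n) (𝕜 := ℂ) (M i j) :
      EuclideanSpace ℂ n →L[ℂ] EuclideanSpace ℂ n)) = Matrix.toEuclideanCLM (n := m × n) (𝕜 := ℂ)
      (Matrix.of fun p q => M p.1 q.1 p.2 q.2) := by
    change Matrix.toEuclideanCLM (n := m × n) (𝕜 := ℂ) _ = _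
    congr 1
    ext p q
    simp only [Matrix.of_apply]
    change (Matrix.toEuclideanCLM (n := n) (𝕜 := ℂ)).symm
      (Matrix.toEuclideanCLM (n := n) (𝕜 := ℂ) (M p.1 q.1)) p.2 q.2 = _
    rw [StarAlgEquiv.symm_apply_apply]
  rw [h2] at h
  exact h.symm

end MN1

end Pool.Agent.KW
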